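import Mathlib

set_option autoImplicit false

open FirstOrder.Language Relation

namespace Pool.Agent.Results.MP_a6fba8_lc.NotModular

/-- A conditional rule `cond ⇒ lhs → rhs`; `cond` is a finite list of pairs `(u, v)`, read as the
conjunction of the joinability conditions `u ↓ v`. Terms are the first-order terms over the function
symbols of `L` with variables indexed by `ℕ`. -/
structure Rule (L : FirstOrder.Language.{0, 0}) where
  lhs : L.Term ℕ
  rhs : L.Term ℕ
  cond : List (L.Term ℕ × L.Term ℕ)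

/-- Closure of a relation on terms under contexts: the relation is applied at one position. -/
inductive Ctx {L : FirstOrder.Language.{0, 0}} (r : L.Term ℕ → L.Term ℕ → Prop) :
    L.Term ℕ → L.Term ℕ → Prop
  | here (s t : L.Term ℕ) : r s t → Ctx r s t
  | arg {n : ℕ} (f : L.Functions n) (ts : Fin n → L.Term ℕ) (i : Fin n) (t : L.Term ℕ) :
      Ctx r (ts i) t → Ctx r (Term.func f ts) (Term.func f (Function.update ts i t))

/-- The level-`n` rewrite relation of a join conditional system: level `0` is empty, and level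
`n + 1` applies, in any context, the instances of rules whose instantiated conditions are joinable
for the reflexive-transitive closure of level `n`. -/
def StepAt {L : FirstOrder.Language.{0, 0}} (R : Set (Rule L)) : ℕ → L.Term ℕ → L.Term ℕ → Prop
  | 0 => fun _ _ => False
  | n + 1 => Ctx fun s t => ∃ ρ ∈ R, ∃ σ : ℕ → L.Term ℕ,
      s = ρ.lhs.subst σ ∧ t = ρ.rhs.subst σ ∧
        ∀ c ∈ ρ.cond, ∃ w, ReflTransGen (StepAt R n) (c.1.subst σ) w ∧
          ReflTransGen (StepAt R n) (c.2.subst σ) w

/-- The rewrite relation of the join conditional system `R`: the union of its levels. -/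
def Step {L : FirstOrder.Language.{0, 0}} (R : Set (Rule L)) (s t : L.Term ℕ) : Prop :=
  ∃ n, StepAt R n s t

/-- A term is a normal form if no step applies to it. -/
def IsNF {L : FirstOrder.Language.{0, 0}} (R : Set (Rule L)) (s : L.Term ℕ) : Prop :=
  ∀ t, ¬ Step R s t

/-- Unique normal forms: convertible normal forms are identical. -/
def UN {L : FirstOrder.Language.{0, 0}} (R : Set (Rule L)) : Prop :=
  ∀ s t : L.Term ℕ, IsNF R s → IsNF R t → EqvGen (Step R) s t → s = t

/-- Transport of a rule along an embedding of signatures. -/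
def Rule.map {L L' : FirstOrder.Language.{0, 0}} (φ : L →ᴸ L') (ρ : Rule L) : Rule L' where
  lhs := φ.onTerm ρ.lhs
  rhs := φ.onTerm ρ.rhs
  cond := ρ.cond.map fun c => (φ.onTerm c.1, φ.onTerm c.2)

/-- The disjoint union of two systems: it lives over the disjoint union of the signatures and has
the rules of both systems. -/
def disjointUnion {L₁ L₂ : FirstOrder.Language.{0, 0}} (R : Set (Rule L₁)) (S : Set (Rule L₂)) :
    Set (Rule (L₁.sum L₂)) :=
  Rule.map LHom.sumInl '' R ∪ Rule.map LHom.sumInr '' S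

/-- The usual restrictions on a join conditional rewriting system, in a strong form: finitely many
rules, no left-hand side is a variable, and every variable of the right-hand side and of the
conditions occurs in the left-hand side. -/
def WellFormed {L : FirstOrder.Language.{0, 0}} (R : Set (Rule L)) : Prop :=
  R.Finite ∧ ∀ ρ ∈ R, (∀ x, ρ.lhs ≠ Term.var x) ∧ ρ.rhs.varFinset ⊆ ρ.lhs.varFinset ∧
    ∀ c ∈ ρ.cond, c.1.varFinset ⊆ ρ.lhs.varFinset ∧ c.2.varFinset ⊆ ρ.lhs.varFinset

/-! ### General facts -/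

section General

variable {L : FirstOrder.Language.{0, 0}}

theorem Ctx.mono {r r' : L.Term ℕ → L.Term ℕ → Prop} (h : ∀ s t, r s t → r' s t)
    {s t : L.Term ℕ} (hst : Ctx r s t) : Ctx r' s t := by
  induction hst with
  | here s t hr => exact Ctx.here s t (h s t hr)
  | arg f ts i t _ ih => exact Ctx.arg f ts i t ih

theorem rtg_mono {r r' : L.Term ℕ → L.Term ℕ → Prop} (h : ∀ s t, r s t → r' s t)
    {s t : L.Term ℕ} (hst : ReflTransGen r s t) : ReflTransGen r' s t := by
  induction hst with
  | refl => exact ReflTransGen.refl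
  | tail _ h' ih => exact ih.tail (h _ _ h')

theorem eqvGen_inv {α : Type*} (R : Set (Rule L)) (v : L.Term ℕ → α)
    (h : ∀ s t, Step R s t → v s = v t) {s t : L.Term ℕ} (hst : EqvGen (Step R) s t) :
    v s = v t := by
  induction hst with
  | rel s t h' => exact h s t h'
  | refl s => rfl
  | symm s t _ ih => exact ih.symm
  | trans s t u _ _ ih1 ih2 => exact ih1.trans ih2

theorem rtg_inv {α : Type*} {r : L.Term ℕ → L.Term ℕ → Prop} (v : L.Term ℕ → α)
    (h : ∀ s t, r s t → v s = v t) {s t : L.Term ℕ} (hst : ReflTransGen r s t) : v s = v t := by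
  induction hst with
  | refl => rfl
  | tail _ h' ih => exact ih.trans (h _ _ h')

end General

/-! ### The first system -/

/-- Symbols of the first signature: seven constants and one unary symbol. -/
inductive F₁ : ℕ → Type
  | a : F₁ 0
  | a' : F₁ 0
  | b : F₁ 0
  | c : F₁ 0
  | d : F₁ 0
  | q : F₁ 0
  | q' : F₁ 0
  | f : F₁ 1

/-- The first signature. -/
abbrev L₁ : FirstOrder.Language.{0, 0} := ⟨F₁, fun _ => Empty⟩

/-- The term consisting of a constant. -/
def k (s : F₁ 0) : L₁.Term ℕ := Term.func (L := L₁) (l := 0) s Fin.elim0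

/-- The term `f t`. -/
def ap (t : L₁.Term ℕ) : L₁.Term ℕ := Term.func (L := L₁) (l := 1) F₁.f fun _ => t

/-- The unconditional rules, as pairs. -/
def base₁ : List (L₁.Term ℕ × L₁.Term ℕ) :=
  [(k .a, k .b), (k .a, k .d), (k .a', k .d), (k .a', k .c), (k .b, k .b), (k .c, k .c),
    (k .d, k .d), (ap (Term.var 0), k .q')]

/-- The first system: `a → b`, `a → d`, `a' → d`, `a' → c`, `b → b`, `c → c`, `d → d`,
`f x → q'`, and `x ↓ b ∧ x ↓ c ⇒ f x → q`. -/
def R₁ : Set (Rule L₁) :=
  {ρ | (∃ p ∈ base₁, ρ = ⟨p.1, p.2, []⟩) ∨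
    ρ = ⟨ap (Term.var 0), k .q, [(Term.var 0, k .b), (Term.var 0, k .c)]⟩}

/-! ### The second system -/

/-- The second signature has a single symbol, of arity four. -/
inductive F₂ : ℕ → Type
  | g : F₂ 4

/-- The second signature. -/
abbrev L₂ : FirstOrder.Language.{0, 0} := ⟨F₂, fun _ => Empty⟩

/-- The term `g x₀ x₁ x₂ x₃`. -/
def gx : L₂.Term ℕ := Term.func (L := L₂) (l := 4) F₂.g fun i => Term.var (i : ℕ)

/-- The conditions `x₀ ↓ x₁`, `x₁ ↓ x₂`, `x₂ ↓ x₃`. -/
def cond₂ : List (L₂.Term ℕ × L₂.Term ℕ) :=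
  [(Term.var 0, Term.var 1), (Term.var 1, Term.var 2), (Term.var 2, Term.var 3)]

/-- The second system: `x₀ ↓ x₁ ∧ x₁ ↓ x₂ ∧ x₂ ↓ x₃ ⇒ g x₀ x₁ x₂ x₃ → x₀` and, under the same
conditions, `g x₀ x₁ x₂ x₃ → x₃`. -/
def R₂ : Set (Rule L₂) :=
  {⟨gx, Term.var 0, cond₂⟩, ⟨gx, Term.var 3, cond₂⟩}

/-! ### Unique normal forms for the first system -/

/-- A number attached to each symbol of the first signature. -/
def tagF : ∀ {n : ℕ}, F₁ n → ℕ
  | _, .a => 0
  | _, .a' => 1
  | _, .b => 2
  | _, .c => 3
  | _, .d => 4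
  | _, .q => 5
  | _, .q' => 6
  | _, .f => 7

/-- The number of the root symbol. -/
def tag : L₁.Term ℕ → ℕ
  | Term.var x => x + 8
  | Term.func f _ => tagF f

/-- The pairs of root numbers that a step may have. -/
def okPairs : List (ℕ × ℕ) :=
  [(0, 2), (0, 4), (1, 4), (1, 3), (2, 2), (3, 3), (4, 4), (7, 6), (7, 7)]

/-- The unconditional part of the first system. -/
def U₁ : L₁.Term ℕ → L₁.Term ℕ → Prop :=
  Ctx fun s t => ∃ p ∈ base₁, ∃ σ : ℕ → L₁.Term ℕ, s = p.1.subst σ ∧ t = p.2.subst σ

theorem tag_subst_k (s : F₁ 0) (σ : ℕ → L₁.Term ℕ) : tag ((k s).subst σ) = tagF s := rfl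

theorem tag_subst_ap (t : L₁.Term ℕ) (σ : ℕ → L₁.Term ℕ) : tag ((ap t).subst σ) = 7 := rfl

theorem U₁_tag {s t : L₁.Term ℕ} (h : U₁ s t) : (tag s, tag t) ∈ okPairs := by
  unfold U₁ at h
  cases h with
  | here s t h =>
    obtain ⟨p, hp, σ, rfl, rfl⟩ := h
    simp only [base₁, List.mem_cons, List.not_mem_nil, or_false] at hp
    rcases hp with rfl | rfl | rfl | rfl | rfl | rfl | rfl | rfl <;>
      simp [tag_subst_k, tag_subst_ap, tagF, okPairs]
  | arg f ts i t h =>
    cases f
    case f => simp [tag, tagF, okPairs]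
    all_goals exact i.elim0

theorem stepAt_U₁ (n : ℕ) : ∀ s t : L₁.Term ℕ, StepAt R₁ n s t → U₁ s t := by
  induction n with
  | zero => intro s t h; exact h.elim
  | succ n ih =>
    intro s t h
    refine Ctx.mono ?_ h
    rintro s t ⟨ρ, hρ, σ, rfl, rfl, hc⟩
    rcases hρ with ⟨p, hp, rfl⟩ | rfl
    · exact ⟨p, hp, σ, rfl, rfl⟩
    · exfalso
      obtain ⟨w1, h1, h2⟩ := hc (Term.var 0, k .b) (by simp)
      obtain ⟨w2, h3, h4⟩ := hc (Term.var 0, k .c) (by simp)
      have from2 : ∀ u v : L₁.Term ℕ, ReflTransGen (StepAt R₁ n) u v → tag u = 2 → tag v = 2 := by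
        intro u v huv hu
        induction huv with
        | refl => exact hu
        | tail _ h' ih' =>
          have := U₁_tag (ih _ _ h')
          simp only [okPairs, List.mem_cons, List.not_mem_nil, or_false, Prod.mk.injEq] at this
          omega
      have from3 : ∀ u v : L₁.Term ℕ, ReflTransGen (StepAt R₁ n) u v → tag u = 3 → tag v = 3 := by
        intro u v huv hu
        induction huv with
        | refl => exact hu
        | tail _ h' ih' =>
          have := U₁_tag (ih _ _ h')
          simp only [okPairs, List.mem_cons, List.not_mem_nil, or_false, Prod.mk.injEq] at this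
          omega
      have to2 : ∀ u v : L₁.Term ℕ, ReflTransGen (StepAt R₁ n) u v → tag v = 2 →
          tag u = 0 ∨ tag u = 2 := by
        intro u v huv
        induction huv using ReflTransGen.head_induction_on with
        | refl => intro h; exact Or.inr h
        | head h' _ ih' =>
          intro hv
          have := U₁_tag (ih _ _ h')
          have := ih' hv
          simp only [okPairs, List.mem_cons, List.not_mem_nil, or_false, Prod.mk.injEq] at *
          omega
      have to3 : ∀ u v : L₁.Term ℕ, ReflTransGen (StepAt R₁ n) u v → tag v = 3 →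
          tag u = 1 ∨ tag u = 3 := by
        intro u v huv
        induction huv using ReflTransGen.head_induction_on with
        | refl => intro h; exact Or.inr h
        | head h' _ ih' =>
          intro hv
          have := U₁_tag (ih _ _ h')
          have := ih' hv
          simp only [okPairs, List.mem_cons, List.not_mem_nil, or_false, Prod.mk.injEq] at *
          omega
      have e1 := to2 _ _ h1 (from2 _ _ h2 rfl)
      have e2 := to3 _ _ h3 (from3 _ _ h4 rfl)
      simp only at e1 e2
      omega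

/-- A value attached to root numbers which is invariant under steps. -/
def phi : ℕ → ℕ
  | 0 => 0
  | 1 => 0
  | 2 => 0
  | 3 => 0
  | 4 => 0
  | 5 => 1
  | 6 => 2
  | 7 => 2
  | n + 8 => n + 3

theorem phi_step (s t : L₁.Term ℕ) (h : Step R₁ s t) : phi (tag s) = phi (tag t) := by
  obtain ⟨n, hn⟩ := h
  have := U₁_tag (stepAt_U₁ n s t hn)
  simp only [okPairs, List.mem_cons, List.not_mem_nil, or_false, Prod.mk.injEq] at this
  rcases this with h | h | h | h | h | h | h | h | h <;> rw [h.1, h.2] <;> rfl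

theorem k_subst (s : F₁ 0) (σ : ℕ → L₁.Term ℕ) : (k s).subst σ = k s := by
  unfold k
  simp only [Term.subst]
  congr 1
  funext i
  exact i.elim0

theorem func0_eq (s : F₁ 0) (ts : Fin 0 → L₁.Term ℕ) :
    (Term.func (L := L₁) (l := 0) s ts : L₁.Term ℕ) = k s := by
  unfold k
  congr 1
  funext i
  exact i.elim0

theorem step_base (p : L₁.Term ℕ × L₁.Term ℕ) (hp : p ∈ base₁) (σ : ℕ → L₁.Term ℕ) :
    Step R₁ (p.1.subst σ) (p.2.subst σ) :=
  ⟨1, Ctx.here _ _ ⟨⟨p.1, p.2, []⟩, Or.inl ⟨p, hp, rfl⟩, σ, rfl, rfl, by simp⟩⟩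

theorem nf_tag (s : L₁.Term ℕ) (h : IsNF R₁ s) : tag s = 5 ∨ tag s = 6 ∨ 8 ≤ tag s := by
  cases s with
  | var x => right; right; simp [tag]
  | @func n f ts =>
    have key : ∀ (c : F₁ 0) (c' : F₁ 0), (k c, k c') ∈ base₁ → ¬ IsNF R₁ (k c) := by
      intro c c' hc hnf
      have := step_base _ hc (fun x => Term.var x)
      simp only [k_subst] at this
      exact hnf _ this
    cases f
    case a =>
      rw [func0_eq] at h
      exact absurd h (key .a .b (by simp [base₁]))
    case a' =>
      rw [func0_eq] at h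
      exact absurd h (key .a' .d (by simp [base₁]))
    case b =>
      rw [func0_eq] at h
      exact absurd h (key .b .b (by simp [base₁]))
    case c =>
      rw [func0_eq] at h
      exact absurd h (key .c .c (by simp [base₁]))
    case d =>
      rw [func0_eq] at h
      exact absurd h (key .d .d (by simp [base₁]))
    case q => left; rfl
    case q' => right; left; rfl
    case f =>
      exfalso
      have h1 := step_base (ap (Term.var 0), k .q') (by simp [base₁]) (fun _ => ts 0)
      have h2 : ((ap (Term.var 0)).subst fun _ => ts 0) =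
          (Term.func (L := L₁) (l := 1) F₁.f ts : L₁.Term ℕ) := by
        unfold ap
        simp only [Term.subst]
        congr 1
        funext i
        rw [Subsingleton.elim i 0]
      rw [h2] at h1
      exact h _ h1

theorem tag_inj (s t : L₁.Term ℕ) (h : tag s = 5 ∨ tag s = 6 ∨ 8 ≤ tag s) (hst : tag s = tag t) :
    s = t := by
  cases s with
  | var x =>
    cases t with
    | var y =>
      simp only [tag] at hst
      have : x = y := by omega
      rw [this]
    | func f ts => cases f <;> simp [tag, tagF] at hst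
  | func f ts =>
    cases t with
    | var y => cases f <;> simp [tag, tagF] at hst
    | func f' ts' =>
      cases f <;> cases f' <;> simp [tag, tagF] at hst h <;> (rw [func0_eq, func0_eq])

theorem UN_R₁ : UN R₁ := by
  intro s t hs ht hst
  have h1 := nf_tag s hs
  have h2 := nf_tag t ht
  have h3 := eqvGen_inv R₁ (fun u => phi (tag u)) phi_step hst
  apply tag_inj s t h1
  rcases h1 with h1 | h1 | h1 <;> rcases h2 with h2 | h2 | h2
  · rw [h1, h2]
  · rw [h1, h2] at h3; simp [phi] at h3
  · obtain ⟨m, hm⟩ := Nat.exists_eq_add_of_le' h2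
    rw [h1, hm] at h3; simp [phi] at h3
  · rw [h1, h2] at h3; simp [phi] at h3
  · rw [h1, h2]
  · obtain ⟨m, hm⟩ := Nat.exists_eq_add_of_le' h2
    rw [h1, hm] at h3; simp [phi] at h3
  · obtain ⟨m, hm⟩ := Nat.exists_eq_add_of_le' h1
    rw [h2, hm] at h3; simp [phi] at h3
  · obtain ⟨m, hm⟩ := Nat.exists_eq_add_of_le' h1
    rw [h2, hm] at h3; simp [phi] at h3
  · obtain ⟨m, hm⟩ := Nat.exists_eq_add_of_le' h1
    obtain ⟨m', hm'⟩ := Nat.exists_eq_add_of_le' h2
    rw [hm, hm'] at h3 ⊢
    simp only [phi] at h3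
    omega

/-! ### Unique normal forms for the second system -/

open Classical in
/-- Collapse every `g`-term all of whose collapsed arguments agree. -/
noncomputable def collapse : L₂.Term ℕ → L₂.Term ℕ
  | Term.var x => Term.var x
  | @Term.func _ _ l f ts =>
    if h : 0 < l ∧ ∀ i j, collapse (ts i) = collapse (ts j) then collapse (ts ⟨0, h.1⟩)
    else Term.func f fun i => collapse (ts i)

theorem collapse_all {l : ℕ} (f : L₂.Functions l) (ts : Fin l → L₂.Term ℕ) (i : Fin l)
    (h : ∀ i j, collapse (ts i) = collapse (ts j)) :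
    collapse (Term.func f ts) = collapse (ts i) := by
  have hl : 0 < l := lt_of_le_of_lt (Nat.zero_le _) i.2
  rw [collapse, dif_pos ⟨hl, h⟩]
  exact h _ _

theorem collapse_not {l : ℕ} (f : L₂.Functions l) (ts : Fin l → L₂.Term ℕ)
    (h : ¬ (0 < l ∧ ∀ i j, collapse (ts i) = collapse (ts j))) :
    collapse (Term.func f ts) = Term.func f fun i => collapse (ts i) := by
  rw [collapse, dif_neg h]

theorem collapse_congr {l : ℕ} (f : L₂.Functions l) (ts ts' : Fin l → L₂.Term ℕ)
    (h : ∀ i, collapse (ts i) = collapse (ts' i)) :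
    collapse (Term.func f ts) = collapse (Term.func f ts') := by
  by_cases h1 : 0 < l ∧ ∀ i j, collapse (ts i) = collapse (ts j)
  · rw [collapse_all f ts ⟨0, h1.1⟩ h1.2, collapse_all f ts' ⟨0, h1.1⟩, h]
    intro i j
    rw [← h, ← h, h1.2]
  · rw [collapse_not f ts h1, collapse_not f ts']
    · congr 1
      funext i
      exact h i
    · rintro ⟨h2, h3⟩
      exact h1 ⟨h2, fun i j => by rw [h, h, h3]⟩

theorem collapse_stepAt (n : ℕ) : ∀ s t : L₂.Term ℕ, StepAt R₂ n s t →
    collapse s = collapse t := by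
  induction n with
  | zero => intro s t h; exact h.elim
  | succ n ih =>
    intro s t h
    have h' : Ctx (fun s t => ∃ ρ ∈ R₂, ∃ σ : ℕ → L₂.Term ℕ,
      s = ρ.lhs.subst σ ∧ t = ρ.rhs.subst σ ∧
        ∀ c ∈ ρ.cond, ∃ w, ReflTransGen (StepAt R₂ n) (c.1.subst σ) w ∧
          ReflTransGen (StepAt R₂ n) (c.2.subst σ) w) s t := h
    clear h
    induction h' with
    | here s t h =>
      obtain ⟨ρ, hρ, σ, rfl, rfl, hc⟩ := h
      have hcond : ρ.cond = cond₂ := by
        rcases hρ with rfl | rfl <;> rfl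
      have hlhs : ρ.lhs = gx := by
        rcases hρ with rfl | rfl <;> rfl
      have join : ∀ c ∈ cond₂, collapse (c.1.subst σ) = collapse (c.2.subst σ) := by
        intro c hc'
        obtain ⟨w, h1, h2⟩ := hc c (by rw [hcond]; exact hc')
        exact (rtg_inv collapse ih h1).trans (rtg_inv collapse ih h2).symm
      have j01 : collapse (σ 0) = collapse (σ 1) := join (Term.var 0, Term.var 1) (by simp [cond₂])
      have j12 : collapse (σ 1) = collapse (σ 2) := join (Term.var 1, Term.var 2) (by simp [cond₂])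
      have j23 : collapse (σ 2) = collapse (σ 3) := join (Term.var 2, Term.var 3) (by simp [cond₂])
      have hall : ∀ i j : Fin 4, collapse (σ (i : ℕ)) = collapse (σ (j : ℕ)) := by
        intro i j
        have h0 : ∀ i : Fin 4, collapse (σ (i : ℕ)) = collapse (σ 0) := by
          intro i
          fin_cases i
          · rfl
          · exact j01.symm
          · exact (j01.trans j12).symm
          · exact (j01.trans (j12.trans j23)).symm
        rw [h0 i, h0 j]
      have hg : gx.subst σ = Term.func (L := L₂) (l := 4) F₂.g fun i => σ (i : ℕ) := rfl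
      rw [hlhs, hg]
      rcases hρ with rfl | rfl
      · exact collapse_all (l := 4) _ _ 0 hall
      · exact collapse_all (l := 4) _ _ 3 hall
    | arg f ts i t _ ih2 =>
      apply collapse_congr
      intro j
      by_cases hj : j = i
      · subst hj; rw [Function.update_self]; exact ih2
      · rw [Function.update_of_ne hj]

theorem stepAt_arg {L : FirstOrder.Language.{0, 0}} (R : Set (Rule L)) (m : ℕ) {n : ℕ}
    (f : L.Functions n) (ts : Fin n → L.Term ℕ) (i : Fin n) (t : L.Term ℕ)
    (h : StepAt R m (ts i) t) :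
    StepAt R m (Term.func f ts) (Term.func f (Function.update ts i t)) := by
  cases m with
  | zero => exact h.elim
  | succ m => exact Ctx.arg f ts i t h

theorem collapse_nf (s : L₂.Term ℕ) (h : IsNF R₂ s) : collapse s = s := by
  induction s with
  | var x => rw [collapse]
  | @func l f ts ih =>
    have hts : ∀ i, collapse (ts i) = ts i := by
      intro i
      apply ih
      rintro t ⟨m, hm⟩
      exact h _ ⟨m, stepAt_arg R₂ m f ts i t hm⟩
    rw [collapse_not]
    · congr 1
      funext i
      exact hts i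
    · rintro ⟨_, hall⟩
      cases f
      have h0 : ∀ i, ts i = ts 0 := by
        intro i
        rw [← hts i, ← hts 0]
        exact hall _ _
      apply h (ts 0)
      refine ⟨1, Ctx.here _ _ ⟨⟨gx, Term.var 0, cond₂⟩, Or.inl rfl, fun _ => ts 0, ?_, rfl, ?_⟩⟩
      · show _ = Term.func (L := L₂) (l := 4) F₂.g fun i => ts 0
        congr 1
        funext i
        exact h0 i
      · intro c hc
        simp only [cond₂, List.mem_cons, List.not_mem_nil, or_false] at hc
        rcases hc with rfl | rfl | rfl <;>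
          exact ⟨ts 0, ReflTransGen.refl, ReflTransGen.refl⟩

theorem UN_R₂ : UN R₂ := by
  intro s t hs ht hst
  have h := eqvGen_inv R₂ collapse (fun s t ⟨n, hn⟩ => collapse_stepAt n s t hn) hst
  rwa [collapse_nf s hs, collapse_nf t ht] at h

/-! ### The disjoint union -/

/-- The combined signature. -/
abbrev L₃ : FirstOrder.Language.{0, 0} := L₁.sum L₂

/-- A constant of the first signature in the combined signature. -/
def k₃ (s : F₁ 0) : L₃.Term ℕ := (LHom.sumInl : L₁ →ᴸ L₃).onTerm (k s)

theorem k₃_subst (s : F₁ 0) (σ : ℕ → L₃.Term ℕ) : (k₃ s).subst σ = k₃ s := by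
  unfold k₃ k
  simp only [LHom.onTerm, Term.subst]
  congr 1
  funext i
  exact i.elim0

/-- The number of the root symbol in the combined signature. -/
def tag₃ : L₃.Term ℕ → ℕ
  | Term.var x => x + 10
  | Term.func (Sum.inl f) _ => tagF f
  | Term.func (Sum.inr _) _ => 9

theorem nf_k₃ (s : F₁ 0) (hs : tagF s = 5 ∨ tagF s = 6) : IsNF (disjointUnion R₁ R₂) (k₃ s) := by
  have htag : tag₃ (k₃ s) = tagF s := rfl
  rintro t ⟨n, hn⟩
  cases n with
  | zero => exact hn
  | succ n =>
    have hn' : ∀ u : L₃.Term ℕ, (tag₃ u = 5 ∨ tag₃ u = 6) → ¬ StepAt (disjointUnion R₁ R₂) (n + 1) u t := by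
      intro u hu hn
      have hn2 : Ctx (fun s t => ∃ ρ ∈ disjointUnion R₁ R₂, ∃ σ : ℕ → L₃.Term ℕ,
        s = ρ.lhs.subst σ ∧ t = ρ.rhs.subst σ ∧
        ∀ c ∈ ρ.cond, ∃ w, ReflTransGen (StepAt (disjointUnion R₁ R₂) n) (c.1.subst σ) w ∧
          ReflTransGen (StepAt (disjointUnion R₁ R₂) n) (c.2.subst σ) w) u t := hn
      cases hn2 with
      | here s t h =>
        obtain ⟨ρ, hρ, σ, rfl, rfl, _⟩ := h
        rcases hρ with ⟨ρ', hρ', rfl⟩ | ⟨ρ', hρ', rfl⟩
        · rcases hρ' with ⟨p, hp, rfl⟩ | rfl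
          · simp only [base₁, List.mem_cons, List.not_mem_nil, or_false] at hp
            rcases hp with rfl | rfl | rfl | rfl | rfl | rfl | rfl | rfl <;>
              simp [Rule.map, k, ap, LHom.onTerm, LHom.sumInl, Term.subst, tag₃, tagF] at hu
          · simp [Rule.map, ap, LHom.onTerm, LHom.sumInl, Term.subst, tag₃, tagF] at hu
        · rcases hρ' with rfl | rfl <;>
            simp [Rule.map, gx, LHom.onTerm, LHom.sumInr, Term.subst, tag₃] at hu
      | arg f ts i t h =>
        cases f with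
        | inl f =>
          cases f
          case f => simp [tag₃, tagF] at hu
          all_goals exact i.elim0
        | inr f => simp [tag₃] at hu
    exact hn' _ (by rw [htag]; exact hs) hn

theorem step₃ (ρ : Rule L₃) (hρ : ρ ∈ disjointUnion R₁ R₂) (n : ℕ) (σ : ℕ → L₃.Term ℕ)
    (hc : ∀ c ∈ ρ.cond, ∃ w, ReflTransGen (StepAt (disjointUnion R₁ R₂) n) (c.1.subst σ) w ∧
          ReflTransGen (StepAt (disjointUnion R₁ R₂) n) (c.2.subst σ) w) :
    StepAt (disjointUnion R₁ R₂) (n + 1) (ρ.lhs.subst σ) (ρ.rhs.subst σ) :=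
  Ctx.here _ _ ⟨ρ, hρ, σ, rfl, rfl, hc⟩

theorem step₃_k (n : ℕ) (s s' : F₁ 0) (h : (k s, k s') ∈ base₁) :
    StepAt (disjointUnion R₁ R₂) (n + 1) (k₃ s) (k₃ s') := by
  have := step₃ (Rule.map LHom.sumInl ⟨k s, k s', []⟩)
    (Or.inl ⟨_, Or.inl ⟨_, h, rfl⟩, rfl⟩) n (fun x => Term.var x) (by simp [Rule.map])
  have h1 : (Rule.map (LHom.sumInl : L₁ →ᴸ L₃) ⟨k s, k s', []⟩).lhs.subst (fun x => Term.var x)
      = k₃ s := k₃_subst s _
  have h2 : (Rule.map (LHom.sumInl : L₁ →ᴸ L₃) ⟨k s, k s', []⟩).rhs.subst (fun x => Term.var x)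
      = k₃ s' := k₃_subst s' _
  rw [h1, h2] at this
  exact this

/-- The substitution used for the rules of the second system. -/
def σ₂ : ℕ → L₃.Term ℕ
  | 0 => k₃ .b
  | 1 => k₃ .a
  | 2 => k₃ .a'
  | _ => k₃ .c

/-- The term `g(b, a, a', c)`. -/
def gt : L₃.Term ℕ := ((LHom.sumInr : L₂ →ᴸ L₃).onTerm gx).subst σ₂

theorem conds₂ : ∀ c ∈ (Rule.map (LHom.sumInr : L₂ →ᴸ L₃) ⟨gx, Term.var 0, cond₂⟩).cond,
    ∃ w, ReflTransGen (StepAt (disjointUnion R₁ R₂) 1) (c.1.subst σ₂) w ∧
      ReflTransGen (StepAt (disjointUnion R₁ R₂) 1) (c.2.subst σ₂) w := by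
  intro c hc
  simp only [Rule.map, cond₂, List.map_cons, List.map_nil, List.mem_cons, List.not_mem_nil,
    or_false] at hc
  rcases hc with rfl | rfl | rfl
  · exact ⟨k₃ .b, ReflTransGen.refl, ReflTransGen.single (step₃_k 0 .a .b (by simp [base₁]))⟩
  · exact ⟨k₃ .d, ReflTransGen.single (step₃_k 0 .a .d (by simp [base₁])),
      ReflTransGen.single (step₃_k 0 .a' .d (by simp [base₁]))⟩
  · exact ⟨k₃ .c, ReflTransGen.single (step₃_k 0 .a' .c (by simp [base₁])), ReflTransGen.refl⟩

theorem gt_b : StepAt (disjointUnion R₁ R₂) 2 gt (k₃ .b) :=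
  step₃ (Rule.map LHom.sumInr ⟨gx, Term.var 0, cond₂⟩) (Or.inr ⟨_, Or.inl rfl, rfl⟩) 1 σ₂ conds₂

theorem gt_c : StepAt (disjointUnion R₁ R₂) 2 gt (k₃ .c) :=
  step₃ (Rule.map LHom.sumInr ⟨gx, Term.var 3, cond₂⟩) (Or.inr ⟨_, Or.inr rfl, rfl⟩) 1 σ₂ conds₂

/-- The term `f(g(b, a, a', c))`. -/
def top : L₃.Term ℕ := ((LHom.sumInl : L₁ →ᴸ L₃).onTerm (ap (Term.var 0))).subst fun _ => gt

theorem top_q' : StepAt (disjointUnion R₁ R₂) 1 top (k₃ .q') := by
  have := step₃ (Rule.map LHom.sumInl ⟨ap (Term.var 0), k .q', []⟩)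
    (Or.inl ⟨_, Or.inl ⟨(ap (Term.var 0), k .q'), by simp [base₁], rfl⟩, rfl⟩) 0 (fun _ => gt)
    (by simp [Rule.map])
  have h2 : (Rule.map (LHom.sumInl : L₁ →ᴸ L₃) ⟨ap (Term.var 0), k .q', []⟩).rhs.subst
      (fun _ => gt) = k₃ .q' := k₃_subst .q' _
  rw [h2] at this
  exact this

theorem top_q : StepAt (disjointUnion R₁ R₂) 3 top (k₃ .q) := by
  have := step₃ (Rule.map LHom.sumInl ⟨ap (Term.var 0), k .q,
      [(Term.var 0, k .b), (Term.var 0, k .c)]⟩) (Or.inl ⟨_, Or.inr rfl, rfl⟩) 2 (fun _ => gt) (by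
    intro c hc
    simp only [Rule.map, List.map_cons, List.map_nil, List.mem_cons, List.not_mem_nil,
      or_false] at hc
    rcases hc with rfl | rfl
    · refine ⟨k₃ .b, ReflTransGen.single gt_b, ?_⟩
      have : ((LHom.sumInl : L₁ →ᴸ L₃).onTerm (k .b)).subst (fun _ => gt) = k₃ .b := k₃_subst .b _
      simp only
      rw [this]
    · refine ⟨k₃ .c, ReflTransGen.single gt_c, ?_⟩
      have : ((LHom.sumInl : L₁ →ᴸ L₃).onTerm (k .c)).subst (fun _ => gt) = k₃ .c := k₃_subst .c _
      simp only
      rw [this])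
  have h2 : (Rule.map (LHom.sumInl : L₁ →ᴸ L₃) ⟨ap (Term.var 0), k .q,
      [(Term.var 0, k .b), (Term.var 0, k .c)]⟩).rhs.subst (fun _ => gt) = k₃ .q := k₃_subst .q _
  rw [h2] at this
  exact this

theorem not_UN_union' : ∃ s t : L₃.Term ℕ, IsNF (disjointUnion R₁ R₂) s ∧
    IsNF (disjointUnion R₁ R₂) t ∧ EqvGen (Step (disjointUnion R₁ R₂)) s t ∧ s ≠ t := by
  refine ⟨k₃ .q, k₃ .q', nf_k₃ .q (Or.inl rfl), nf_k₃ .q' (Or.inr rfl),
    EqvGen.trans _ _ _ (EqvGen.symm _ _ (EqvGen.rel _ _ ⟨3, top_q⟩)) (EqvGen.rel _ _ ⟨1, top_q'⟩),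
    ?_⟩
  intro h1
  have h2 := congrArg tag₃ h1
  have h3 : tag₃ (k₃ .q) = 5 := rfl
  have h4 : tag₃ (k₃ .q') = 6 := rfl
  rw [h3, h4] at h2
  omega

theorem k_varFinset (s : F₁ 0) : (k s).varFinset = ∅ := by
  simp [k, Term.varFinset]

theorem wf₁ : WellFormed R₁ := by
  constructor
  · have h : R₁ = (fun p : L₁.Term ℕ × L₁.Term ℕ => (⟨p.1, p.2, []⟩ : Rule L₁)) ''
        {p | p ∈ base₁} ∪
        {⟨ap (Term.var 0), k .q, [(Term.var 0, k .b), (Term.var 0, k .c)]⟩} := by
      ext ρ
      constructor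
      · rintro (⟨p, hp, rfl⟩ | h)
        · exact Or.inl ⟨p, hp, rfl⟩
        · exact Or.inr h
      · rintro (⟨p, hp, rfl⟩ | h)
        · exact Or.inl ⟨p, hp, rfl⟩
        · exact Or.inr h
    rw [h]
    exact ((List.finite_toSet base₁).image _).union (Set.finite_singleton _)
  · rintro ρ (⟨p, hp, rfl⟩ | rfl)
    · refine ⟨?_, ?_, by simp⟩
      · intro x hx
        simp only [base₁, List.mem_cons, List.not_mem_nil, or_false] at hp
        rcases hp with rfl | rfl | rfl | rfl | rfl | rfl | rfl | rfl <;> simp [k, ap] at hx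
      · simp only [base₁, List.mem_cons, List.not_mem_nil, or_false] at hp
        rcases hp with rfl | rfl | rfl | rfl | rfl | rfl | rfl | rfl <;>
          simp [k_varFinset]
    · refine ⟨fun x hx => by simp [ap] at hx, by simp [k_varFinset], ?_⟩
      intro c hc
      simp only [List.mem_cons, List.not_mem_nil, or_false] at hc
      rcases hc with rfl | rfl <;> simp [k_varFinset, ap]

theorem wf₂ : WellFormed R₂ := by
  have hg : ∀ i : ℕ, i < 4 → i ∈ gx.varFinset := by
    intro i hi
    simp only [gx, Term.varFinset, Finset.mem_biUnion, Finset.mem_univ, true_and,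
      Finset.mem_singleton]
    exact ⟨⟨i, hi⟩, rfl⟩
  constructor
  · exact (Set.finite_singleton _).insert _
  · intro ρ hρ
    have hlhs : ρ.lhs = gx := by rcases hρ with rfl | rfl <;> rfl
    have hcond : ρ.cond = cond₂ := by rcases hρ with rfl | rfl <;> rfl
    refine ⟨fun x hx => by rw [hlhs] at hx; simp [gx] at hx, ?_, ?_⟩
    · rw [hlhs]
      rcases hρ with rfl | rfl <;> simp only [Term.varFinset, Finset.singleton_subset_iff]
      · exact hg 0 (by omega)
      · exact hg 3 (by omega)
    · intro c hc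
      rw [hcond] at hc
      rw [hlhs]
      simp only [cond₂, List.mem_cons, List.not_mem_nil, or_false] at hc
      rcases hc with rfl | rfl | rfl <;>
        simp only [Term.varFinset, Finset.singleton_subset_iff]
      · exact ⟨hg 0 (by omega), hg 1 (by omega)⟩
      · exact ⟨hg 1 (by omega), hg 2 (by omega)⟩
      · exact ⟨hg 2 (by omega), hg 3 (by omega)⟩

/-- Unique normal forms is not a modular property of join conditional term-rewriting systems: there
are two finite join systems without extra variables, over disjoint signatures, which both have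
unique normal forms, while their disjoint union has two distinct convertible normal forms. -/
theorem result :
    ∃ (L₁ L₂ : FirstOrder.Language.{0, 0}) (R : Set (Rule L₁)) (S : Set (Rule L₂)),
      WellFormed R ∧ WellFormed S ∧ UN R ∧ UN S ∧
      ∃ s t : (L₁.sum L₂).Term ℕ, IsNF (disjointUnion R S) s ∧ IsNF (disjointUnion R S) t ∧
        EqvGen (Step (disjointUnion R S)) s t ∧ s ≠ t :=
  ⟨L₁, L₂, R₁, R₂, wf₁, wf₂, UN_R₁, UN_R₂, not_UN_union'⟩

end Pool.Agent.Results.MP_a6fba8_lc.NotModular
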